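import Pool.Agent.Lib.MP_efc1da_coF.Os
import Pool.Agent.Lib.MP_efc1da_coD.St
import Pool.Agent.Lib.MP_efc1da_coA.Mxa
import Pool.Agent.Lib.MP_efc1da_coA.Sza
import Pool.Agent.Lib.MP_efc1da_coA.Hta

/-!
# Lower bound for deleted vertices: the kernel and the joint operation
-/

set_option autoImplicit false

namespace Pool.Agent.EfcF

open Pool.Agent.Efc Pool.Agent.EfcA Pool.Agent.EfcD

/-- If the degrees of the family `F` satisfy the bound `Bd`, there is a set `P` of at most `s` points
which is contained in a member, such that every set of at most `a` points outside `P` is avoided by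
many members which contain `P`. -/
theorem ker {α : Type} [Fintype α] [DecidableEq α] (F : Finset (Finset α)) (C : ℝ)
    (a s : ℕ) (hC : 1 ≤ C) (ha : 1 ≤ a) (hs : Real.exp 2 * C * (2 * a) ≤ s)
    (hF : F.Nonempty) (hBd : Bd C F.card F) :
    ∃ P : Finset α, (∃ A ∈ F, P ⊆ A) ∧
      ∀ B : Finset α, B.card ≤ a → Disjoint B P →
        F.card ≤ 2 * (2 * a) ^ s * (F.filter fun A => P ⊆ A ∧ Disjoint A B).card := by
  have hFc : (0 : ℝ) < F.card := by exact_mod_cast Finset.card_pos.2 hF
  have ha' : (1 : ℝ) ≤ a := by exact_mod_cast ha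
  have hr : (0 : ℝ) < 2 * a := by linarith
  obtain ⟨S, hS1, hS2, hS3⟩ := stmtMxa α (2 * a : ℝ) F hr hF
  have hSs : S.card ≤ s := by
    by_contra hcon
    push Not at hcon
    have h1 : Real.exp 2 * C * (2 * a) < S.card :=
      lt_of_le_of_lt hs (by exact_mod_cast hcon)
    have h2 := stmtSza α F C F.card (2 * a : ℝ) S hC hFc hr hBd h1
    have h3 : (F.card : ℝ) ≤ Real.exp (-(2 * (S.card : ℝ))) * F.card := hS2.trans h2
    have h4 : Real.exp (-(2 * (S.card : ℝ))) < 1 := by
      rw [Real.exp_lt_one_iff]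
      have : (0 : ℝ) < S.card := by exact_mod_cast (show 0 < S.card by omega)
      linarith
    nlinarith
  obtain ⟨A0, hA0⟩ := hS1
  have hA0' := hA0
  unfold up at hA0'
  rw [Finset.mem_filter] at hA0'
  refine ⟨S, ⟨A0, hA0'.1, hA0'.2⟩, fun B hBa hBP => ?_⟩
  have h7 := stmtHta α (up F S) S B (2 * a : ℝ) hr hS3 hBP
    (by
      have : (B.card : ℝ) ≤ a := by exact_mod_cast hBa
      linarith)
  have h8 : (((up F S).filter fun A => Disjoint A B).card : ℝ) ≤
      ((F.filter fun A => S ⊆ A ∧ Disjoint A B).card : ℝ) := by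
    have : ((up F S).filter fun A => Disjoint A B).card ≤
        (F.filter fun A => S ⊆ A ∧ Disjoint A B).card := by
      refine Finset.card_le_card fun A hA => ?_
      unfold up at hA
      rw [Finset.mem_filter, Finset.mem_filter] at hA
      exact Finset.mem_filter.2 ⟨hA.1.1, hA.1.2, hA.2⟩
    exact_mod_cast this
  have h9 : (2 * a : ℝ) ^ S.card ≤ (2 * a) ^ s := pow_le_pow_right₀ (by linarith) hSs
  have h10 : (F.card : ℝ) ≤
      2 * (2 * a) ^ s * ((F.filter fun A => S ⊆ A ∧ Disjoint A B).card : ℝ) := by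
    calc (F.card : ℝ) ≤ (2 * a) ^ S.card * (up F S).card := hS2
      _ ≤ (2 * a) ^ s * (2 * ((F.filter fun A => S ⊆ A ∧ Disjoint A B).card : ℝ)) := by
          refine mul_le_mul h9 (by linarith) (Nat.cast_nonneg _) (by positivity)
      _ = _ := by ring
  exact_mod_cast h10

/-- From `k` to `k + a`. -/
theorem raise {α : Type} [Fintype α] [DecidableEq α] (k : ℕ) (F : Finset (Finset α)) (C : ℝ)
    (a s : ℕ) (hC : 1 ≤ C) (ha : 1 ≤ a) (hs : Real.exp 2 * C * (2 * a) ≤ s) (hak : 2 * a ≤ k)
    (hU : Unif k F) (hI : Efc.Inter F) (hCv : Cov k F) (hBd : Bd C F.card F) :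
    ∃ (β : Type) (_ : Fintype β) (_ : DecidableEq β) (G : Finset (Finset β)),
      Unif (k + a) G ∧ Efc.Inter G ∧ Cov (k + a) G ∧
      ∀ B : Finset β, B.card ≤ a →
        F.card ≤ 2 * (2 * a) ^ s * (G.filter fun A => Disjoint A B).card := by
  obtain ⟨A1, hA1, -⟩ := hCv ∅ (by rw [Finset.card_empty]; omega)
  obtain ⟨P, hP, hPB⟩ := ker F C a s hC ha hs ⟨A1, hA1⟩ hBd
  rcases P.eq_empty_or_nonempty with h0 | hne
  · obtain ⟨β, i1, i2, G, gU, gI, gC, gB⟩ := steps a a α k F hak hU hI hCv
    refine ⟨β, i1, i2, G, gU, gI, gC, fun B hB => ?_⟩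
    obtain ⟨B0, hB0, hle⟩ := gB B hB
    have h1 := hPB B0 hB0 (by rw [h0]; exact Finset.disjoint_empty_right _)
    have h2 : (F.filter fun A => P ⊆ A ∧ Disjoint A B0).card ≤
        (F.filter fun A => Disjoint A B0).card := by
      refine Finset.card_le_card fun A hA => ?_
      rw [Finset.mem_filter] at hA ⊢
      exact ⟨hA.1, hA.2.2⟩
    have h3 : 2 ^ a * k.factorial ≤ (k + a).factorial := by
      rw [mul_comm, ← Nat.factorial_mul_ascFactorial]
      refine Nat.mul_le_mul_left _ ?_
      calc 2 ^ a ≤ (k + 1) ^ a := Nat.pow_le_pow_left (by omega) a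
        _ ≤ _ := Nat.pow_succ_le_ascFactorial (k + 1) a
    have h4 : (F.filter fun A => Disjoint A B0).card ≤ (G.filter fun A => Disjoint A B).card := by
      have hpos : 0 < 2 ^ a * k.factorial := by positivity
      refine Nat.le_of_mul_le_mul_left ?_ hpos
      exact (Nat.mul_le_mul_right _ h3).trans hle
    exact h1.trans (Nat.mul_le_mul_left _ (h2.trans h4))
  · obtain ⟨A0, hA0, hPA0⟩ := hP
    have hPk : P.card ≤ k := by
      rw [← hU A0 hA0]
      exact Finset.card_le_card hPA0
    have hq : P.card + (k - P.card) = k := by omega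
    refine ⟨Pt α a (k - P.card), inferInstance, inferInstance, fam a (k - P.card) F P,
      unif hq hU, inter ha hI, cov hq hU hI hCv ⟨A0, hA0, hPA0⟩, fun B hB => ?_⟩
    have h1 := hPB (B.toLeft \ P)
      ((Finset.card_le_card Finset.sdiff_subset).trans (Finset.card_toLeft_le.trans hB))
      Finset.sdiff_disjoint
    exact h1.trans (Nat.mul_le_mul_left _ (avoid hne B hB))

end Pool.Agent.EfcF
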