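import Pool.Agent.Lib.MP_efc1da_coD.It
import Pool.Agent.Lib.MP_efc1da_coF.Kf
import Pool.Agent.Lib.MP_efc1da_coD.St
import Pool.Agent.Lib.MP_efc1da_coD.Rs
import Pool.Agent.Lib.MP_efc1da_coA.Spec

/-!
# Lower bound for deleted vertices: the density argument
-/

set_option autoImplicit false

namespace Pool.Agent.EfcF.FiM

open Pool.Agent.Efc Pool.Agent.EfcA Pool.Agent.EfcD

/-- The set whose supremum is taken. -/
private def V (k a : ℕ) : Set ℕ :=
  {v : ℕ | ∃ n : ℕ, ∃ F : Finset (Finset (Fin n)),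
      (∀ A ∈ F, A.card = k) ∧
      (∀ A ∈ F, ∀ A' ∈ F, ¬ Disjoint A A') ∧
      (∀ T : Finset (Fin n), T.card < k → ∃ A ∈ F, Disjoint A T) ∧
      (∃ B : Finset (Fin n), B.card = a ∧ (F.filter (fun A => Disjoint A B)).card = v) ∧
      (∀ B : Finset (Fin n), B.card = a → v ≤ (F.filter (fun A => Disjoint A B)).card)}

private theorem card_le (hEL : ELStmt) {k n : ℕ} {F : Finset (Finset (Fin n))}
    (h1 : ∀ A ∈ F, A.card = k) (h2 : ∀ A ∈ F, ∀ A' ∈ F, ¬ Disjoint A A')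
    (h3 : ∀ T : Finset (Fin n), T.card < k → ∃ A ∈ F, Disjoint A T) : F.card ≤ k ^ k := by
  have h := hEL (Fin n) k F h1 h2 h3 ∅
  rw [Finset.filter_true_of_mem fun A _ => Finset.empty_subset A, Finset.card_empty,
    Nat.sub_zero] at h
  exact h

private theorem bdd (hEL : ELStmt) (k a : ℕ) : BddAbove (V k a) := by
  refine ⟨k ^ k, ?_⟩
  rintro v ⟨n, F, h1, h2, h3, ⟨B, -, hB⟩, -⟩
  rw [← hB]
  exact (Finset.card_le_card (Finset.filter_subset _ _)).trans (card_le hEL h1 h2 h3)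

private theorem mem_zero {k n : ℕ} {F : Finset (Finset (Fin n))}
    (h1 : ∀ A ∈ F, A.card = k) (h2 : ∀ A ∈ F, ∀ A' ∈ F, ¬ Disjoint A A')
    (h3 : ∀ T : Finset (Fin n), T.card < k → ∃ A ∈ F, Disjoint A T) :
    F.card ∈ V k 0 := by
  have h4 : F.filter (fun A => Disjoint A (∅ : Finset (Fin n))) = F :=
    Finset.filter_true_of_mem fun A _ => Finset.disjoint_empty_right A
  refine ⟨n, F, h1, h2, h3, ⟨∅, rfl, by rw [h4]⟩, fun B hB => ?_⟩
  rw [Finset.card_eq_zero.1 hB, h4]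

/-- The facts on `f k = m k 0`. -/
private theorem facts (hEL : ELStmt) (hLow : LowStmt) (m : ℕ → ℕ → ℕ)
    (hm : ∀ k a, m k a = sSup (V k a)) :
    (∀ (k n : ℕ) (F : Finset (Finset (Fin n))), Unif k F → Efc.Inter F → Cov k F →
      F.card ≤ m k 0) ∧
    (∀ k, 1 ≤ k → k.factorial ≤ m k 0) ∧
    (∀ k, 1 ≤ k → ∃ (n : ℕ) (F : Finset (Finset (Fin n))), Unif k F ∧ Efc.Inter F ∧ Cov k F ∧
      F.card = m k 0) := by
  have hub : ∀ (k n : ℕ) (F : Finset (Finset (Fin n))), Unif k F → Efc.Inter F → Cov k F →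
      F.card ≤ m k 0 := by
    intro k n F h1 h2 h3
    rw [hm k 0]
    exact le_csSup (bdd hEL k 0) (mem_zero h1 h2 h3)
  refine ⟨hub, fun k hk => ?_, fun k hk => ?_⟩
  · obtain ⟨n, F, h1, h2, h3, h4⟩ := hLow k hk
    exact h4.trans (hub k n F h1 h2 h3)
  · obtain ⟨n₀, F₀, h1, h2, h3, -⟩ := hLow k hk
    have hmem := Nat.sSup_mem ⟨_, mem_zero h1 h2 h3⟩ (bdd hEL k 0)
    rw [← hm k 0] at hmem
    obtain ⟨n, F, g1, g2, g3, ⟨B, hB, hB'⟩, -⟩ := hmem
    refine ⟨n, F, g1, g2, g3, ?_⟩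
    rw [← hB', Finset.card_eq_zero.1 hB]
    congr 1
    exact (Finset.filter_true_of_mem fun A _ => Finset.disjoint_empty_right A).symm

/-- A lower bound for `m K a` from one family. -/
private theorem lower (hEL : ELStmt) (m : ℕ → ℕ → ℕ) (hm : ∀ k a, m k a = sSup (V k a))
    {K a n t c : ℕ} {F : Finset (Finset (Fin n))} (hU : Unif K F) (hI : Efc.Inter F) (hC : Cov K F)
    (haK : a < K)
    (h : ∀ B : Finset (Fin n), B.card = a → t ≤ c * (F.filter fun A => Disjoint A B).card) :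
    t ≤ c * m K a := by
  obtain ⟨A0, hA0, -⟩ := hC ∅ (by rw [Finset.card_empty]; omega)
  have hKn : K ≤ n := by
    rw [← hU A0 hA0]
    have := Finset.card_le_univ A0
    rwa [Fintype.card_fin] at this
  have hne : (Finset.powersetCard a (Finset.univ : Finset (Fin n))).Nonempty := by
    rw [Finset.powersetCard_nonempty, Finset.card_univ, Fintype.card_fin]
    omega
  obtain ⟨B, hB, hmin⟩ := Finset.exists_min_image _
    (fun B : Finset (Fin n) => (F.filter fun A => Disjoint A B).card) hne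
  rw [Finset.mem_powersetCard] at hB
  have hv : (F.filter fun A => Disjoint A B).card ∈ V K a :=
    ⟨n, F, hU, hI, hC, ⟨B, hB.2, rfl⟩, fun B' hB' =>
      hmin B' (Finset.mem_powersetCard.2 ⟨Finset.subset_univ B', hB'⟩)⟩
  have h1 : (F.filter fun A => Disjoint A B).card ≤ m K a := by
    rw [hm K a]
    exact le_csSup (bdd hEL K a) hv
  exact (h B hB.2).trans (Nat.mul_le_mul_left c h1)

/-- The function `a k = log (f k / k!)`. -/
private noncomputable def la (f : ℕ → ℕ) (k : ℕ) : ℝ := Real.log ((f k : ℝ) / k.factorial)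

private theorem fpos {f : ℕ → ℕ} {k : ℕ} (hf : k.factorial ≤ f k) : (0 : ℝ) < f k := by
  exact_mod_cast (Nat.factorial_pos k).trans_le hf

private theorem la_mono {f : ℕ → ℕ} {k : ℕ} (hf : k.factorial ≤ f k)
    (h : (k + 1) * f k ≤ f (k + 1)) : la f k ≤ la f (k + 1) := by
  unfold la
  have h0 : (0 : ℝ) < k.factorial := by positivity
  have h1 : (0 : ℝ) < (k + 1).factorial := by positivity
  refine Real.log_le_log (div_pos (fpos hf) h0) ?_
  rw [div_le_div_iff₀ h0 h1]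
  have h2 : ((k + 1).factorial : ℝ) = (k + 1) * k.factorial := by
    exact_mod_cast Nat.factorial_succ k
  have h3 : ((k : ℝ) + 1) * f k ≤ f (k + 1) := by exact_mod_cast h
  rw [h2]
  calc (f k : ℝ) * ((k + 1) * k.factorial) = ((k : ℝ) + 1) * f k * k.factorial := by ring
    _ ≤ f (k + 1) * k.factorial := mul_le_mul_of_nonneg_right h3 h0.le

private theorem la_le {f : ℕ → ℕ} {k : ℕ} (hf : k.factorial ≤ f k) (h : f k ≤ k ^ k) :
    la f k ≤ k := by
  unfold la
  have h0 : (0 : ℝ) < k.factorial := by positivity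
  rw [Real.log_le_iff_le_exp (div_pos (fpos hf) h0)]
  have h1 : (f k : ℝ) ≤ (k : ℝ) ^ k := by exact_mod_cast h
  exact (div_le_div_of_nonneg_right h1 h0.le).trans
    (Real.pow_div_factorial_le_exp (k : ℝ) (Nat.cast_nonneg k) k)

/-- A good index. -/
private theorem good {f : ℕ → ℕ} {k u : ℕ} {lam : ℝ} (hf : k.factorial ≤ f k)
    (hf' : (k + u).factorial ≤ f (k + u)) (h : la f (k + u) ≤ la f k + lam * u) :
    (f (k + u) : ℝ) * k.factorial ≤ Real.exp lam ^ u * f k * (k + u).factorial := by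
  unfold la at h
  have h0 : (0 : ℝ) < k.factorial := by positivity
  have h1 : (0 : ℝ) < (k + u).factorial := by positivity
  have h2 : 0 < (f (k + u) : ℝ) / (k + u).factorial := div_pos (fpos hf') h1
  have h3 : 0 < (f k : ℝ) / k.factorial := div_pos (fpos hf) h0
  have h4 := Real.exp_le_exp.2 h
  rw [Real.exp_log h2, Real.exp_add, Real.exp_log h3, mul_comm lam, Real.exp_nat_mul] at h4
  rw [div_mul_eq_mul_div, div_le_div_iff₀ h1 h0] at h4
  calc (f (k + u) : ℝ) * k.factorial ≤ f k * Real.exp lam ^ u * (k + u).factorial := h4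
    _ = Real.exp lam ^ u * f k * (k + u).factorial := by ring

/-- The inequality for one good `k`. -/
private theorem one (hEL : ELStmt) (m : ℕ → ℕ → ℕ) (hm : ∀ k a, m k a = sSup (V k a))
    {k a s g : ℕ} {CB : ℝ} (hCB : 1 ≤ CB) (ha : 1 ≤ a) (hs : Real.exp 2 * CB * (2 * a) ≤ s)
    (hk2 : 2 * a ≤ k) {n : ℕ} {F : Finset (Finset (Fin n))} (hU : Unif k F)
    (hI : Efc.Inter F) (hC : Cov k F) (hBd : Bd CB F.card F) :
    (k + a + g).factorial * F.card ≤
      (2 * (2 * a) ^ s * (2 ^ g * (k + a).factorial)) * m (k + a + g) a := by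
  obtain ⟨β, i1, i2, G, gU, gI, gC, gB⟩ := raise k F CB a s hCB ha hs hk2 hU hI hC hBd
  obtain ⟨γ, j1, j2, H, hU', hI', hC', hB'⟩ := steps a g β (k + a) G (by omega) gU gI gC
  obtain ⟨n', F', f1, f2, f3, f4⟩ := trans (k + a + g) H hU' hI' hC'
  refine lower hEL m hm f1 f2 f3 (by omega) fun B3 hB3 => ?_
  obtain ⟨B2, hB2, hle2⟩ := f4 B3
  obtain ⟨B1, hB1, hle1⟩ := hB' B2 (by omega)
  have hle := gB B1 hB1
  calc (k + a + g).factorial * F.card ≤
        (k + a + g).factorial * (2 * (2 * a) ^ s * (G.filter fun A => Disjoint A B1).card) :=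
        Nat.mul_le_mul_left _ hle
    _ = 2 * (2 * a) ^ s * ((k + a + g).factorial * (G.filter fun A => Disjoint A B1).card) := by
        ring
    _ ≤ 2 * (2 * a) ^ s * (2 ^ g * (k + a).factorial *
          (H.filter fun A => Disjoint A B2).card) := Nat.mul_le_mul_left _ hle1
    _ ≤ 2 * (2 * a) ^ s * (2 ^ g * (k + a).factorial *
          (F'.filter fun A => Disjoint A B3).card) :=
        Nat.mul_le_mul_left _ (Nat.mul_le_mul_left _ hle2)
    _ = _ := by ring

/-- The numerical part. -/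
private theorem num {k a g l c : ℕ} {fk fK mm : ℕ} {E : ℝ} (hE1 : 1 ≤ E) (hE : E ^ 2 ≤ 2 ^ l)
    (ha : 1 ≤ a) (hg : g ≤ a)
    (h1 : (fK : ℝ) * k.factorial ≤ E ^ (a + g) * fk * (k + a + g).factorial)
    (h2 : (k + a + g).factorial * fk ≤
      (2 * (2 * a) ^ (c * a) * (2 ^ g * (k + a).factorial)) * mm) :
    fK ≤ ((l + 4 + c) * a) ^ ((l + 4 + c) * a) * (k + a + g) ^ a * mm := by
  set K : ℕ := k + a + g with hK
  have hkf : 0 < k.factorial := Nat.factorial_pos k
  -- the exponential factor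
  have e1 : E ^ (a + g) ≤ (2 : ℝ) ^ (l * a) := by
    calc E ^ (a + g) ≤ E ^ (2 * a) := pow_le_pow_right₀ hE1 (by omega)
      _ = (E ^ 2) ^ a := by rw [pow_mul]
      _ ≤ ((2 : ℝ) ^ l) ^ a := pow_le_pow_left₀ (by positivity) hE _
      _ = _ := (pow_mul 2 l a).symm
  have e2 : fK * k.factorial ≤ 2 ^ (l * a) * (K.factorial * fk) := by
    have : (fK : ℝ) * k.factorial ≤ 2 ^ (l * a) * (K.factorial * fk) := by
      calc (fK : ℝ) * k.factorial ≤ E ^ (a + g) * fk * K.factorial := h1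
        _ = E ^ (a + g) * (K.factorial * fk) := by ring
        _ ≤ _ := mul_le_mul_of_nonneg_right e1 (by positivity)
    exact_mod_cast this
  have e3 : (k + a).factorial ≤ k.factorial * K ^ a := by
    rw [← Nat.factorial_mul_ascFactorial]
    refine Nat.mul_le_mul_left _ ((Nat.ascFactorial_le_pow_add k a).trans ?_)
    exact Nat.pow_le_pow_left (by omega) _
  have e4 : fK * k.factorial ≤
      (2 ^ (l * a) * (2 * (2 * a) ^ (c * a) * (2 ^ g * K ^ a)) * mm) * k.factorial := by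
    calc fK * k.factorial ≤ 2 ^ (l * a) * (K.factorial * fk) := e2
      _ ≤ 2 ^ (l * a) * ((2 * (2 * a) ^ (c * a) * (2 ^ g * (k + a).factorial)) * mm) :=
          Nat.mul_le_mul_left _ h2
      _ ≤ 2 ^ (l * a) * ((2 * (2 * a) ^ (c * a) * (2 ^ g * (k.factorial * K ^ a))) * mm) :=
          Nat.mul_le_mul_left _ (Nat.mul_le_mul_right _ (Nat.mul_le_mul_left _
            (Nat.mul_le_mul_left _ e3)))
      _ = _ := by ring
  have e5 := Nat.le_of_mul_le_mul_right e4 hkf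
  refine e5.trans (Nat.mul_le_mul_right _ ?_)
  have ha2 : 2 ≤ 2 * a := by omega
  have e6 : 2 ^ (l * a) * (2 * (2 * a) ^ (c * a) * 2 ^ g) ≤
      ((l + 4 + c) * a) ^ ((l + 4 + c) * a) := by
    calc 2 ^ (l * a) * (2 * (2 * a) ^ (c * a) * 2 ^ g) ≤
          (2 * a) ^ (l * a) * ((2 * a) ^ a * (2 * a) ^ (c * a) * (2 * a) ^ a) := by
          refine Nat.mul_le_mul (Nat.pow_le_pow_left ha2 _) (Nat.mul_le_mul
            (Nat.mul_le_mul ?_ le_rfl) ((Nat.pow_le_pow_left ha2 _).trans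
              (Nat.pow_le_pow_right (by omega) hg)))
          calc 2 ≤ (2 * a) ^ 1 := by rw [pow_one]; exact ha2
            _ ≤ (2 * a) ^ a := Nat.pow_le_pow_right (by omega) ha
      _ = (2 * a) ^ ((l + 2 + c) * a) := by
          rw [← pow_add, ← pow_add, ← pow_add]
          congr 1
          ring
      _ ≤ ((l + 4 + c) * a) ^ ((l + 2 + c) * a) :=
          Nat.pow_le_pow_left (Nat.mul_le_mul_right _ (by omega)) _
      _ ≤ _ := by
          refine Nat.pow_le_pow_right (Nat.mul_pos (by omega) (by omega)) ?_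
          exact Nat.mul_le_mul_right _ (by omega)
  calc 2 ^ (l * a) * (2 * (2 * a) ^ (c * a) * (2 ^ g * K ^ a)) =
        2 ^ (l * a) * (2 * (2 * a) ^ (c * a) * 2 ^ g) * K ^ a := by ring
    _ ≤ _ := Nat.mul_le_mul_right _ e6

end Pool.Agent.EfcF.FiM

namespace Pool.Agent.EfcF

open Pool.Agent.Efc Pool.Agent.EfcA Pool.Agent.EfcD

/-- The final statement: for all but at most `δ n` of the `k ≤ n`:
`m(k,a) ≥ (C a)^(-C a) k^(-a) m(k,0)` for all `a < k`. -/
def StmtFi : Prop :=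
  ∀ m : ℕ → ℕ → ℕ,
    (∀ k a : ℕ, m k a = sSup {v : ℕ | ∃ n : ℕ, ∃ F : Finset (Finset (Fin n)),
      (∀ A ∈ F, A.card = k) ∧
      (∀ A ∈ F, ∀ A' ∈ F, ¬ Disjoint A A') ∧
      (∀ T : Finset (Fin n), T.card < k → ∃ A ∈ F, Disjoint A T) ∧
      (∃ B : Finset (Fin n), B.card = a ∧ (F.filter (fun A => Disjoint A B)).card = v) ∧
      (∀ B : Finset (Fin n), B.card = a → v ≤ (F.filter (fun A => Disjoint A B)).card)}) →
    ∀ δ : ℝ, 0 < δ → ∃ C : ℕ, ∀ n : ℕ, ∀ S : Finset ℕ,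
      (∀ k ∈ S, k ≤ n ∧ ∃ a : ℕ, a < k ∧ (C * a) ^ (C * a) * k ^ a * m k a < m k 0) →
        (S.card : ℝ) ≤ δ * n

theorem stmtFi : StmtGrw → StmtGdb → StmtLws → Efc.ELStmt → Efc.LowStmt → StmtFi := by
  classical
  intro hGrw hGdb hLws hEL hLow m hm δ hδ
  have hm' : ∀ k a, m k a = sSup (FiM.V k a) := hm
  obtain ⟨hub, hfac, hatt⟩ := FiM.facts hEL hLow m hm'
  set f : ℕ → ℕ := fun k => m k 0 with hfdef
  set δ' : ℝ := min δ 1 with hδ'
  have hδ0 : 0 < δ' := lt_min hδ one_pos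
  have hδ1 : δ' ≤ 1 := min_le_right _ _
  have hδδ : δ' ≤ δ := min_le_left _ _
  set lam : ℝ := 4 / δ' with hlam
  have hlam4 : 4 ≤ lam := by
    rw [hlam, le_div_iff₀ hδ0]
    linarith
  have hK : 1 ≤ Real.exp lam := Real.one_le_exp (by linarith)
  set CB : ℝ := 6 * Real.exp lam + 9 with hCBdef
  have hCB : 1 ≤ CB := by linarith
  set c1 : ℕ := ⌈2 * (Real.exp 2 * CB)⌉₊ with hc1
  have hc1' : 2 * (Real.exp 2 * CB) ≤ c1 := Nat.le_ceil _
  have hc1pos : 1 ≤ c1 := by
    have : (0 : ℝ) < 2 * (Real.exp 2 * CB) := by positivity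
    exact Nat.ceil_pos.2 this
  obtain ⟨l, hl⟩ := pow_unbounded_of_one_lt (Real.exp lam ^ 2) (one_lt_two)
  set CC : ℕ := l + 4 + c1 with hCC
  have hle : ∀ k, 1 ≤ k → f k ≤ k ^ k := by
    intro k hk
    obtain ⟨n, F, h1, h2, h3, h4⟩ := hatt k hk
    have h5 := FiM.card_le hEL h1 h2 h3
    rw [h4] at h5
    exact h5
  obtain ⟨bad, hbad⟩ : ∃ bad : ℕ → Prop, ∀ k, bad k ↔
      1 ≤ k ∧ ∃ u : ℕ, FiM.la f k + lam * u < FiM.la f (k + u) := ⟨_, fun _ => Iff.rfl⟩
  -- the main inequality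
  have key : ∀ k a : ℕ, ¬ Exc bad k → a < k → m k 0 ≤ (CC * a) ^ (CC * a) * k ^ a * m k a := by
    intro k' a hnE hak
    rcases Nat.eq_zero_or_pos a with ha0 | ha
    · rw [ha0]
      simp
    by_cases hsmall : k' < 4 * a
    · obtain ⟨n0, F, h1, h2, h3, -⟩ := hLow k' (by omega)
      have h4 : 1 ≤ 1 * m k' a := by
        refine FiM.lower hEL m hm' h1 h2 h3 hak fun B hB => ?_
        obtain ⟨A, hA, hd⟩ := h3 B (by omega)
        rw [one_mul]
        exact Finset.card_pos.2 ⟨A, Finset.mem_filter.2 ⟨hA, hd⟩⟩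
      rw [one_mul] at h4
      have h5 : k' ≤ CC * a :=
        (show k' ≤ 4 * a by omega).trans (Nat.mul_le_mul_right _ (by omega))
      calc f k' ≤ k' ^ k' := hle k' (by omega)
        _ ≤ (CC * a) ^ k' := Nat.pow_le_pow_left h5 _
        _ ≤ (CC * a) ^ (CC * a) := Nat.pow_le_pow_right (by omega) h5
        _ ≤ (CC * a) ^ (CC * a) * k' ^ a :=
            Nat.le_mul_of_pos_right _ (Nat.pow_pos (by omega))
        _ ≤ (CC * a) ^ (CC * a) * k' ^ a * m k' a := Nat.le_mul_of_pos_right _ h4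
    push Not at hsmall
    obtain ⟨k, hk1, hk2, hgood⟩ := exists_good hnE (u := a) (by omega) (by omega)
    have hkpos : 1 ≤ k := by omega
    have hcon : ∀ u : ℕ, FiM.la f (k + u) ≤ FiM.la f k + lam * u := by
      intro u
      by_contra h
      push Not at h
      exact hgood ((hbad k).2 ⟨hkpos, u, h⟩)
    obtain ⟨g, rfl⟩ : ∃ g, k' = k + a + g := ⟨k' - (k + a), by omega⟩
    have hgU : g ≤ a := by omega
    obtain ⟨n0, F, g1, g2, g3, g4⟩ := hatt k hkpos
    have hgd := fun u => FiM.good (hfac k hkpos) (hfac (k + u) (by omega)) (hcon u)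
    have hBd := hGdb f k (Real.exp lam) hkpos hK (fun k' n F g1 g2 g3 => hub k' n F g1 g2 g3)
      (hfac k hkpos) hgd n0 F g1 g2 g3
    have h2 := FiM.one hEL m hm' (a := a) (s := c1 * a) (g := g) (CB := CB) hCB ha
      (by
        push_cast
        have : (0 : ℝ) ≤ a := Nat.cast_nonneg a
        nlinarith) (by omega)
      g1 g2 g3 (by rw [g4]; exact hBd)
    rw [g4] at h2
    have h3 := hgd (a + g)
    rw [← Nat.add_assoc] at h3
    exact FiM.num hK hl.le ha hgU h3 h2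
  refine ⟨CC, fun n S hS => ?_⟩
  -- all elements of `S` are exceptional
  have hsub : S ⊆ (Finset.Ioc 0 n).filter (Exc bad) := by
    intro k hk
    obtain ⟨hkn, a, hak, hlt⟩ := hS k hk
    rw [Finset.mem_filter, Finset.mem_Ioc]
    refine ⟨⟨by omega, hkn⟩, ?_⟩
    by_contra hE
    exact absurd hlt (not_lt.2 (key k a hE hak))
  have hc2 := (Finset.card_le_card hsub).trans (maximal bad n)
  have hgr := hGrw (FiM.la f) lam (by linarith) ?_ ?_ ?_ n ((Finset.Ioc 0 n).filter bad) ?_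
  · have hc3 : (S.card : ℝ) ≤ 2 * ((Finset.Ioc 0 n).filter bad).card := by
      have : S.card ≤ 2 * ((Finset.Ioc 0 n).filter bad).card := by
        unfold cnt at hc2
        exact hc2
      exact_mod_cast this
    rcases S.eq_empty_or_nonempty with h0 | ⟨k, hk⟩
    · rw [h0, Finset.card_empty, Nat.cast_zero]
      positivity
    · have hn : (1 : ℝ) ≤ n := by
        obtain ⟨hkn, a, hak, -⟩ := hS k hk
        exact_mod_cast (show 1 ≤ n by omega)
      rw [hlam, div_mul_eq_mul_div, div_le_iff₀ hδ0] at hgr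
      have h1 : δ' * n ≤ δ * n := mul_le_mul_of_nonneg_right hδδ (by linarith)
      nlinarith
  · unfold FiM.la
    refine Real.log_nonneg ?_
    have := hfac 1 le_rfl
    rw [Nat.factorial_one] at this ⊢
    rw [Nat.cast_one, div_one]
    exact_mod_cast this
  · intro k hk
    obtain ⟨n, F, h1, h2, h3, h4⟩ := hatt k hk
    obtain ⟨n', F', g1, g2, g3, g4⟩ := hLws (Fin n) k F h1 h2 h3
    refine FiM.la_mono (hfac k hk) ?_
    have h5 := g4.trans (hub (k + 1) n' F' g1 g2 g3)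
    rw [h4] at h5
    exact h5
  · intro k hk
    exact FiM.la_le (hfac k hk) (hle k hk)
  · intro k hk
    rw [Finset.mem_filter, Finset.mem_Ioc, hbad] at hk
    exact ⟨hk.2.1, hk.1.2, hk.2.2⟩

end Pool.Agent.EfcF
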