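import Pool.Agent.Lib.MP_efc1da_co.Spec

/-!
# Lower bound for deleted vertices: the joint operation

`F` is `k`-uniform, intersecting, with covering number `k`, and `P` is a nonempty set of `k - q`
points which is contained in a member.  The operation replaces every point `x` of `P` by `a + 1`
copies `(x, i)`, and adds a set `W` of `2 a - 1` points and `a` blocks of `q` points.  The result is
`(k + a)`-uniform, intersecting, with covering number `k + a`, and for every set `B` of at most `a`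
points the number of members which avoid `B` is at least the number of members of `F` which contain
`P` and avoid the old points of `B` outside `P`.
-/

set_option autoImplicit false

namespace Pool.Agent.EfcF

open Pool.Agent.Efc

/-- The points of the new family. -/
abbrev Pt (α : Type) (a q : ℕ) : Type :=
  α ⊕ ((α × Fin (a + 1)) ⊕ (Fin (2 * a - 1) ⊕ (Fin a × Fin q)))

section

variable {α : Type}

/-- A set of points with given parts. -/
def mk (a q : ℕ) (A : Finset α) (Z : Finset (α × Fin (a + 1))) (K : Finset (Fin (2 * a - 1)))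
    (Y : Finset (Fin a × Fin q)) : Finset (Pt α a q) := A.disjSum (Z.disjSum (K.disjSum Y))

theorem exists_mk (a q : ℕ) (T : Finset (Pt α a q)) : ∃ A Z K Y, T = mk a q A Z K Y :=
  ⟨T.toLeft, T.toRight.toLeft, T.toRight.toRight.toLeft, T.toRight.toRight.toRight, by
    unfold mk
    rw [Finset.toLeft_disjSum_toRight, Finset.toLeft_disjSum_toRight,
      Finset.toLeft_disjSum_toRight]⟩

theorem card_mk (a q : ℕ) (A : Finset α) (Z : Finset (α × Fin (a + 1)))
    (K : Finset (Fin (2 * a - 1))) (Y : Finset (Fin a × Fin q)) :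
    (mk a q A Z K Y).card = A.card + (Z.card + (K.card + Y.card)) := by
  unfold mk
  rw [Finset.card_disjSum, Finset.card_disjSum, Finset.card_disjSum]

theorem disjoint_mk (a q : ℕ) (A A' : Finset α) (Z Z' : Finset (α × Fin (a + 1)))
    (K K' : Finset (Fin (2 * a - 1))) (Y Y' : Finset (Fin a × Fin q)) :
    Disjoint (mk a q A Z K Y) (mk a q A' Z' K' Y') ↔
      Disjoint A A' ∧ Disjoint Z Z' ∧ Disjoint K K' ∧ Disjoint Y Y' := by
  unfold mk
  simp only [Finset.disjoint_left, Finset.inl_mem_disjSum, Finset.inr_mem_disjSum, Sum.forall]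

/-- The set `{(l, y l)}`. -/
def gra {a q : ℕ} (y : Fin a → Fin q) : Finset (Fin a × Fin q) :=
  Finset.univ.map ⟨fun l => (l, y l), fun _ _ h => (Prod.mk.inj h).1⟩

/-- The block number `l`. -/
def blo {a q : ℕ} (l : Fin a) : Finset (Fin a × Fin q) := {l} ×ˢ Finset.univ

theorem card_gra {a q : ℕ} (y : Fin a → Fin q) : (gra y).card = a := by
  unfold gra
  rw [Finset.card_map, Finset.card_univ, Fintype.card_fin]

theorem card_blo {a q : ℕ} (l : Fin a) : (blo (q := q) l).card = q := by
  unfold blo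
  rw [Finset.card_product, Finset.card_singleton, Finset.card_univ, Fintype.card_fin, one_mul]

theorem mem_blo {a q : ℕ} (l l' : Fin a) (j : Fin q) : (l', j) ∈ blo (q := q) l ↔ l' = l := by
  unfold blo
  rw [Finset.mem_product, Finset.mem_singleton]
  exact and_iff_left (Finset.mem_univ _)

theorem gra_blo {a q : ℕ} (y : Fin a → Fin q) (l : Fin a) : ¬ Disjoint (gra y) (blo l) := by
  rw [Finset.not_disjoint_iff]
  refine ⟨(l, y l), ?_, (mem_blo _ _ _).2 rfl⟩
  unfold gra
  rw [Finset.mem_map]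
  exact ⟨l, Finset.mem_univ l, rfl⟩

/-- Choose one point of every block outside a set which contains no block. -/
theorem exists_gra {a q : ℕ} {Y : Finset (Fin a × Fin q)}
    (h : ∀ l : Fin a, ∃ j, (l, j) ∉ Y) : ∃ y : Fin a → Fin q, Disjoint (gra y) Y := by
  choose y hy using h
  refine ⟨y, Finset.disjoint_left.2 fun p hp hY => ?_⟩
  unfold gra at hp
  obtain ⟨l, -, rfl⟩ := Finset.mem_map.1 hp
  exact hy l hY

/-- A point of every block: at least `a` points. -/
theorem card_of_meets {a q : ℕ} {Y : Finset (Fin a × Fin q)} (h : ∀ l : Fin a, ∃ j, (l, j) ∈ Y) :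
    a ≤ Y.card := by
  have h1 : (Finset.univ : Finset (Fin a)) ⊆ Y.image Prod.fst := by
    intro l _
    obtain ⟨j, hj⟩ := h l
    exact Finset.mem_image.2 ⟨(l, j), hj, rfl⟩
  have h2 := Finset.card_le_card h1
  rw [Finset.card_univ, Fintype.card_fin] at h2
  exact h2.trans Finset.card_image_le

/-- A whole block. -/
theorem card_of_whole {a q : ℕ} {Y : Finset (Fin a × Fin q)} (l : Fin a)
    (hl : ∀ j, (l, j) ∈ Y) : q ≤ Y.card := by
  have h1 : (blo (q := q) l) ⊆ Y := by
    rintro ⟨l', j⟩ hp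
    rw [mem_blo] at hp
    subst hp
    exact hl j
  have h2 := Finset.card_le_card h1
  rwa [card_blo] at h2

/-- A point of every block, and a whole block: at least `(a - 1) + q` points. -/
theorem card_of_block {a q : ℕ} {Y : Finset (Fin a × Fin q)} (h : ∀ l : Fin a, ∃ j, (l, j) ∈ Y)
    (l : Fin a) (hl : ∀ j, (l, j) ∈ Y) : (a - 1) + q ≤ Y.card := by
  have h1 : (blo (q := q) l) ⊆ Y.filter (fun p => p.1 = l) := by
    rintro ⟨l', j⟩ hp
    rw [mem_blo] at hp
    rw [Finset.mem_filter]
    subst hp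
    exact ⟨hl j, rfl⟩
  have h2 := Finset.card_le_card h1
  rw [card_blo] at h2
  have h3 : (Finset.univ.erase l : Finset (Fin a)) ⊆
      (Y.filter (fun p => ¬ p.1 = l)).image Prod.fst := by
    intro l' hl'
    obtain ⟨j, hj⟩ := h l'
    exact Finset.mem_image.2 ⟨(l', j), Finset.mem_filter.2 ⟨hj, (Finset.mem_erase.1 hl').1⟩, rfl⟩
  have h4 := (Finset.card_le_card h3).trans Finset.card_image_le
  rw [Finset.card_erase_of_mem (Finset.mem_univ l), Finset.card_univ, Fintype.card_fin] at h4
  have h5 := Finset.card_filter_add_card_filter_not (s := Y) (fun p => p.1 = l)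
  omega

/-- Two sets of more than half of the points of `W` meet. -/
theorem half {a : ℕ} (ha : 1 ≤ a) {K K' : Finset (Fin (2 * a - 1))} (h : K.card = a)
    (h' : K'.card = a) : ¬ Disjoint K K' := by
  intro hd
  have h1 := Finset.card_union_of_disjoint hd
  have h2 := Finset.card_le_univ (K ∪ K')
  rw [Fintype.card_fin] at h2
  omega

/-- Choose `a` points of `W` outside a set of less than `a` points. -/
theorem exists_half {a : ℕ} {K : Finset (Fin (2 * a - 1))} (h : K.card < a) :
    ∃ K' : Finset (Fin (2 * a - 1)), K'.card = a ∧ Disjoint K' K := by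
  have h1 : a ≤ Kᶜ.card := by
    rw [Finset.card_compl, Fintype.card_fin]
    omega
  obtain ⟨K', h2, h3⟩ := Finset.exists_subset_card_eq h1
  exact ⟨K', h3, Finset.disjoint_left.2 fun i hi hK => Finset.mem_compl.1 (h2 hi) hK⟩

/-- The copies `(x, f x)` of the points of `P`. -/
def gr {a : ℕ} (P : Finset α) (f : α → Fin (a + 1)) : Finset (α × Fin (a + 1)) :=
  P.map ⟨fun x => (x, f x), fun _ _ h => (Prod.mk.inj h).1⟩

/-- All copies of the point `m`. -/
def col (a : ℕ) (m : α) : Finset (α × Fin (a + 1)) := {m} ×ˢ Finset.univ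

theorem mem_gr {a : ℕ} (P : Finset α) (f : α → Fin (a + 1)) (x : α) (i : Fin (a + 1)) :
    (x, i) ∈ gr P f ↔ x ∈ P ∧ f x = i := by
  unfold gr
  rw [Finset.mem_map]
  constructor
  · rintro ⟨z, hz, h⟩
    have h1 := Prod.mk.inj h
    obtain ⟨h2, h3⟩ := h1
    subst h2
    exact ⟨hz, h3⟩
  · rintro ⟨hx, rfl⟩
    exact ⟨x, hx, rfl⟩

theorem mem_col {a : ℕ} (m x : α) (i : Fin (a + 1)) : (x, i) ∈ col a m ↔ x = m := by
  unfold col
  rw [Finset.mem_product, Finset.mem_singleton]
  exact and_iff_left (Finset.mem_univ _)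

theorem card_gr {a : ℕ} (P : Finset α) (f : α → Fin (a + 1)) : (gr P f).card = P.card := by
  unfold gr
  rw [Finset.card_map]

theorem card_col (a : ℕ) (m : α) : (col a m).card = a + 1 := by
  unfold col
  rw [Finset.card_product, Finset.card_singleton, Finset.card_univ, Fintype.card_fin, one_mul]

variable [DecidableEq α]

/-- Decidable equality on the points of the new family. -/
instance instDec (a q : ℕ) : DecidableEq (Pt α a q) := instDecidableEqSum

/-- The copies of the members which meet `P`: all copies of `m`, and the copies `(x, 0)` of the points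
of `I`. -/
def colz (a : ℕ) (I : Finset α) (m : α) : Finset (α × Fin (a + 1)) :=
  col a m ∪ gr (I.erase m) (fun _ => 0)

theorem card_colz {a : ℕ} {I : Finset α} {m : α} (hm : m ∈ I) : (colz a I m).card = a + I.card := by
  unfold colz
  rw [Finset.card_union_of_disjoint, card_col, card_gr, Finset.card_erase_of_mem hm]
  · have := Finset.card_pos.2 ⟨m, hm⟩
    omega
  · rw [Finset.disjoint_left]
    rintro ⟨x, i⟩ h1 h2
    rw [mem_col] at h1
    rw [mem_gr] at h2
    exact Finset.ne_of_mem_erase h2.1 h1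

theorem mem_colz {a : ℕ} {I : Finset α} {m x : α} (hx : x ∈ I) : (x, 0) ∈ colz a I m := by
  unfold colz
  rw [Finset.mem_union, mem_col, mem_gr, Finset.mem_erase]
  by_cases h : x = m
  · exact Or.inl h
  · exact Or.inr ⟨⟨h, hx⟩, rfl⟩

theorem mem_colz' {a : ℕ} {I : Finset α} {m : α} (i : Fin (a + 1)) : (m, i) ∈ colz a I m := by
  unfold colz
  rw [Finset.mem_union, mem_col]
  exact Or.inl rfl

theorem of_mem_colz {a : ℕ} {I : Finset α} {m x : α} {i : Fin (a + 1)} (hm : m ∈ I)
    (h : (x, i) ∈ colz a I m) : x ∈ I := by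
  unfold colz at h
  rw [Finset.mem_union, mem_col, mem_gr, Finset.mem_erase] at h
  rcases h with rfl | h
  · exact hm
  · exact h.1.2

/-- The members of the new family. -/
def Mem (a q : ℕ) (F : Finset (Finset α)) (P : Finset α) (B : Finset (Pt α a q)) : Prop :=
  (∃ A ∈ F, Disjoint A P ∧ ∃ y : Fin a → Fin q, B = mk a q A ∅ ∅ (gra y)) ∨
  (∃ A ∈ F, ∃ m ∈ A ∩ P, B = mk a q (A \ P) (colz a (A ∩ P) m) ∅ ∅) ∨
  (∃ A ∈ F, P ⊆ A ∧ ∃ (f : α → Fin (a + 1)) (K : Finset (Fin (2 * a - 1))), K.card = a ∧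
    B = mk a q (A \ P) (gr P f) K ∅) ∨
  (∃ (l : Fin a) (f : α → Fin (a + 1)) (K : Finset (Fin (2 * a - 1))), K.card = a ∧
    B = mk a q ∅ (gr P f) K (blo l))

/-- The new family. -/
noncomputable def fam [Fintype α] (a q : ℕ) (F : Finset (Finset α)) (P : Finset α) :
    Finset (Finset (Pt α a q)) :=
  open Classical in Finset.univ.filter (Mem a q F P)

theorem mem_fam [Fintype α] (a q : ℕ) (F : Finset (Finset α)) (P : Finset α)
    (B : Finset (Pt α a q)) : B ∈ fam a q F P ↔ Mem a q F P B := by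
  unfold fam
  simp

theorem unif [Fintype α] {k a q : ℕ} {F : Finset (Finset α)} {P : Finset α}
    (hq : P.card + q = k) (hU : Unif k F) : Unif (k + a) (fam a q F P) := by
  intro B hB
  rcases (mem_fam a q F P B).1 hB with ⟨A, hA, -, y, rfl⟩ | ⟨A, hA, m, hm, rfl⟩ |
    ⟨A, hA, hPA, f, K, hK, rfl⟩ | ⟨l, f, K, hK, rfl⟩
  · rw [card_mk, hU A hA, Finset.card_empty, Finset.card_empty, card_gra]
    omega
  · rw [card_mk, card_colz hm, Finset.card_empty, Finset.card_empty]
    have h1 := Finset.card_sdiff_add_card_inter A P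
    rw [hU A hA] at h1
    omega
  · rw [card_mk, card_gr, hK, Finset.card_empty]
    have h1 := Finset.card_sdiff_add_card_inter A P
    rw [hU A hA, Finset.inter_eq_right.2 hPA] at h1
    omega
  · rw [card_mk, card_gr, hK, Finset.card_empty, card_blo]
    omega

/-- Copies: the members which meet `P` meet the sets `gr P f`. -/
theorem colz_gr {a : ℕ} {I P : Finset α} {m : α} (hm : m ∈ P) (f : α → Fin (a + 1)) :
    ¬ Disjoint (colz a I m) (gr P f) :=
  Finset.not_disjoint_iff.2 ⟨(m, f m), mem_colz' _, (mem_gr _ _ _ _).2 ⟨hm, rfl⟩⟩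

/-- A member which misses `P` meets the rest of a member. -/
theorem meet_sdiff {F : Finset (Finset α)} {P A A' : Finset α} (hI : Efc.Inter F) (hA : A ∈ F)
    (hA' : A' ∈ F) (h : Disjoint A P) : ¬ Disjoint A (A' \ P) := by
  intro hd
  refine hI A hA A' hA' ?_
  rw [Finset.disjoint_left]
  intro z hz hz'
  exact Finset.disjoint_left.1 hd hz
    (Finset.mem_sdiff.2 ⟨hz', Finset.disjoint_left.1 h hz⟩)

theorem inter [Fintype α] {a q : ℕ} {F : Finset (Finset α)} {P : Finset α} (ha : 1 ≤ a)
    (hI : Efc.Inter F) : Efc.Inter (fam a q F P) := by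
  intro B hB B' hB' hd
  rcases (mem_fam a q F P B).1 hB with ⟨A, hA, hAP, y, rfl⟩ | ⟨A, hA, m, hm, rfl⟩ |
    ⟨A, hA, hPA, f, K, hK, rfl⟩ | ⟨l, f, K, hK, rfl⟩ <;>
  rcases (mem_fam a q F P B').1 hB' with ⟨A', hA', hAP', y', rfl⟩ | ⟨A', hA', m', hm', rfl⟩ |
    ⟨A', hA', hPA', f', K', hK', rfl⟩ | ⟨l', f', K', hK', rfl⟩ <;>
  rw [disjoint_mk] at hd
  · exact hI A hA A' hA' hd.1
  · exact meet_sdiff hI hA hA' hAP hd.1
  · exact meet_sdiff hI hA hA' hAP hd.1
  · exact gra_blo y l' hd.2.2.2
  · exact meet_sdiff hI hA' hA hAP' hd.1.symm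
  · refine hI A hA A' hA' ?_
    rw [Finset.disjoint_left]
    intro z hz hz'
    by_cases hzP : z ∈ P
    · exact Finset.disjoint_left.1 hd.2.1 (mem_colz (Finset.mem_inter.2 ⟨hz, hzP⟩))
        (mem_colz (Finset.mem_inter.2 ⟨hz', hzP⟩))
    · exact Finset.disjoint_left.1 hd.1 (Finset.mem_sdiff.2 ⟨hz, hzP⟩)
        (Finset.mem_sdiff.2 ⟨hz', hzP⟩)
  · exact colz_gr (Finset.mem_inter.1 hm).2 f' hd.2.1
  · exact colz_gr (Finset.mem_inter.1 hm).2 f' hd.2.1
  · exact meet_sdiff hI hA' hA hAP' hd.1.symm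
  · exact colz_gr (Finset.mem_inter.1 hm').2 f hd.2.1.symm
  · exact half ha hK hK' hd.2.2.1
  · exact half ha hK hK' hd.2.2.1
  · exact gra_blo y' l hd.2.2.2.symm
  · exact colz_gr (Finset.mem_inter.1 hm').2 f hd.2.1.symm
  · exact half ha hK hK' hd.2.2.1
  · exact half ha hK hK' hd.2.2.1

/-- Choose copies of the points of `P` outside a set which contains no set of all copies. -/
theorem exists_gr {a : ℕ} {P : Finset α} {Z : Finset (α × Fin (a + 1))}
    (h : ∀ x ∈ P, ∃ i, (x, i) ∉ Z) : ∃ f : α → Fin (a + 1), Disjoint (gr P f) Z := by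
  have h' : ∀ x : α, ∃ i : Fin (a + 1), x ∈ P → (x, i) ∉ Z := by
    intro x
    by_cases hx : x ∈ P
    · obtain ⟨i, hi⟩ := h x hx
      exact ⟨i, fun _ => hi⟩
    · exact ⟨0, fun h => absurd h hx⟩
  choose f hf using h'
  refine ⟨f, Finset.disjoint_left.2 ?_⟩
  rintro ⟨x, i⟩ hp hZ
  rw [mem_gr] at hp
  obtain ⟨hx, rfl⟩ := hp
  exact hf x hx hZ

/-- A set which avoids all copies of the points of `I`. -/
theorem disjoint_colz {a : ℕ} {I : Finset α} {m : α} {Z : Finset (α × Fin (a + 1))} (hm : m ∈ I)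
    (h : ∀ x ∈ I, ∀ i, (x, i) ∉ Z) : Disjoint (colz a I m) Z := by
  rw [Finset.disjoint_left]
  rintro ⟨x, i⟩ hp hZ
  exact h x (of_mem_colz hm hp) i hZ

theorem cov [Fintype α] {k a q : ℕ} {F : Finset (Finset α)} {P : Finset α}
    (hq : P.card + q = k) (hU : Unif k F) (hI : Efc.Inter F) (hC : Cov k F)
    (hP : ∃ A ∈ F, P ⊆ A) : Cov (k + a) (fam a q F P) := by
  classical
  intro T hT
  obtain ⟨T0, TC, TW, TY, rfl⟩ := exists_mk a q T
  rw [card_mk] at hT
  obtain ⟨A0, hA0, hPA0⟩ := hP
  -- the points of `P` a copy of which is in `T`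
  obtain ⟨Q, hQ⟩ : ∃ Q : Finset α, Q = P.filter (fun x => ∃ i, (x, i) ∈ TC) := ⟨_, rfl⟩
  have hQm : ∀ x, x ∈ Q ↔ x ∈ P ∧ ∃ i, (x, i) ∈ TC := fun x => by rw [hQ, Finset.mem_filter]
  have hQc : Q.card ≤ TC.card := by
    have h1 : Q ⊆ TC.image Prod.fst := by
      intro x hx
      obtain ⟨-, i, hi⟩ := (hQm x).1 hx
      exact Finset.mem_image.2 ⟨(x, i), hi, rfl⟩
    exact (Finset.card_le_card h1).trans Finset.card_image_le
  have hQk : ∀ x ∈ P, (∀ i, (x, i) ∈ TC) → Q.card + a ≤ TC.card := by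
    intro x hx hall
    have h1 : col a x ⊆ TC.filter (fun p => p.1 = x) := by
      rintro ⟨x', i⟩ hp
      rw [mem_col] at hp
      subst hp
      exact Finset.mem_filter.2 ⟨hall i, rfl⟩
    have h2 := Finset.card_le_card h1
    rw [card_col] at h2
    have h3 : Q.erase x ⊆ (TC.filter (fun p => ¬ p.1 = x)).image Prod.fst := by
      intro z hz
      rw [Finset.mem_erase] at hz
      obtain ⟨-, i, hi⟩ := (hQm z).1 hz.2
      exact Finset.mem_image.2 ⟨(z, i), Finset.mem_filter.2 ⟨hi, hz.1⟩, rfl⟩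
    have h4 := (Finset.card_le_card h3).trans Finset.card_image_le
    have h5 := Finset.card_filter_add_card_filter_not (s := TC) (fun p => p.1 = x)
    have h6 : Q.card - 1 ≤ (Q.erase x).card := Finset.pred_card_le_card_erase
    omega
  obtain ⟨N, hN⟩ : ∃ N : Finset α, N = T0 ∪ Q := ⟨_, rfl⟩
  have hNc : N.card ≤ T0.card + Q.card := by rw [hN]; exact Finset.card_union_le _ _
  -- the final step
  have fin : (∀ l : Fin a, ∃ j, (l, j) ∉ TY) ∨ (∃ l : Fin a, ∀ j, (l, j) ∈ TY) := by
    by_cases h : ∀ l : Fin a, ∃ j, (l, j) ∉ TY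
    · exact Or.inl h
    · push Not at h
      exact Or.inr h
  -- the step with a member which avoids `N`
  have step1 : N.card < k →
      (∃ B ∈ fam a q F P, Disjoint B (mk a q T0 TC TW TY)) ∨
      ((∃ l : Fin a, ∀ j, (l, j) ∈ TY) ∧ k ≤ ((A0 \ P) ∪ N).card) := by
    intro hNk
    obtain ⟨A, hA, hd⟩ := hC N hNk
    by_cases hex : ∃ A ∈ F, Disjoint A N ∧ ¬ Disjoint A P
    · obtain ⟨A, hA, hd, hAP⟩ := hex
      obtain ⟨m, hm1, hm2⟩ := Finset.not_disjoint_iff.1 hAP
      have hm : m ∈ A ∩ P := Finset.mem_inter.2 ⟨hm1, hm2⟩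
      refine Or.inl ⟨_, (mem_fam _ _ _ _ _).2 (Or.inr (Or.inl ⟨A, hA, m, hm, rfl⟩)), ?_⟩
      rw [disjoint_mk]
      refine ⟨?_, disjoint_colz hm ?_, Finset.disjoint_empty_left _, Finset.disjoint_empty_left _⟩
      · rw [Finset.disjoint_left]
        intro z hz hz0
        exact Finset.disjoint_left.1 hd (Finset.mem_sdiff.1 hz).1
          (by rw [hN]; exact Finset.mem_union_left _ hz0)
      · intro x hx i hi
        rw [Finset.mem_inter] at hx
        exact Finset.disjoint_left.1 hd hx.1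
          (by rw [hN]; exact Finset.mem_union_right _ ((hQm x).2 ⟨hx.2, i, hi⟩))
    · push Not at hex
      have hAP : Disjoint A P := hex A hA hd
      rcases fin with h | h
      · obtain ⟨y, hy⟩ := exists_gra h
        refine Or.inl ⟨_, (mem_fam _ _ _ _ _).2 (Or.inl ⟨A, hA, hAP, y, rfl⟩), ?_⟩
        rw [disjoint_mk]
        refine ⟨?_, Finset.disjoint_empty_left _, Finset.disjoint_empty_left _, hy⟩
        rw [Finset.disjoint_left]
        intro z hz hz0
        exact Finset.disjoint_left.1 hd hz (by rw [hN]; exact Finset.mem_union_left _ hz0)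
      · refine Or.inr ⟨h, ?_⟩
        by_contra hlt
        push Not at hlt
        obtain ⟨B, hB, hBd⟩ := hC _ hlt
        rw [Finset.disjoint_union_right] at hBd
        exact meet_sdiff hI hB hA0 (hex B hB hBd.2) hBd.1
  have hcard0 : (A0 \ P).card = q := by
    have h1 := Finset.card_sdiff_add_card_inter A0 P
    rw [hU A0 hA0, Finset.inter_eq_right.2 hPA0] at h1
    omega
  have hun := Finset.card_union_add_card_inter (A0 \ P) N
  rw [hcard0] at hun
  by_cases hkill : a ≤ TW.card ∨ ∃ x ∈ P, ∀ i, (x, i) ∈ TC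
  · -- `T` kills all sets of the last two kinds
    have h1 : Q.card + a ≤ TC.card + TW.card := by
      rcases hkill with h | ⟨x, hx, h⟩
      · omega
      · have := hQk x hx h
        omega
    rcases step1 (by omega) with h | ⟨⟨l, hl⟩, h⟩
    · exact h
    · exfalso
      have h2 := card_of_whole l hl
      omega
  · push Not at hkill
    obtain ⟨hW, hZ⟩ := hkill
    obtain ⟨f, hf⟩ := exists_gr hZ
    obtain ⟨K, hK, hKW⟩ := exists_half hW
    by_cases hb : ∀ l : Fin a, ∃ j, (l, j) ∈ TY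
    swap
    · push Not at hb
      obtain ⟨l, hl⟩ := hb
      refine ⟨_, (mem_fam _ _ _ _ _).2 (Or.inr (Or.inr (Or.inr ⟨l, f, K, hK, rfl⟩))), ?_⟩
      rw [disjoint_mk]
      refine ⟨Finset.disjoint_empty_left _, hf, hKW, ?_⟩
      rw [Finset.disjoint_left]
      rintro ⟨l', j⟩ hp hpT
      rw [mem_blo] at hp
      subst hp
      exact hl j hpT
    have h1 := card_of_meets hb
    rcases step1 (by omega) with h | ⟨⟨l, hl⟩, h⟩
    · exact h
    · have h2 := card_of_block hb l hl
      have ha : 1 ≤ a := by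
        have := l.2
        omega
      have h3 : ((A0 \ P) ∩ N).card = 0 := by omega
      rw [Finset.card_eq_zero, ← Finset.disjoint_iff_inter_eq_empty] at h3
      refine ⟨_, (mem_fam _ _ _ _ _).2 (Or.inr (Or.inr (Or.inl ⟨A0, hA0, hPA0, f, K, hK, rfl⟩))),
        ?_⟩
      rw [disjoint_mk]
      refine ⟨?_, hf, hKW, Finset.disjoint_empty_left _⟩
      refine Finset.disjoint_of_subset_right ?_ h3
      rw [hN]
      exact Finset.subset_union_left

/-- The members which avoid a small set. -/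
theorem avoid [Fintype α] {a q : ℕ} {F : Finset (Finset α)} {P : Finset α} (hP : P.Nonempty)
    (B : Finset (Pt α a q)) (hB : B.card ≤ a) :
    (F.filter fun A => P ⊆ A ∧ Disjoint A (B.toLeft \ P)).card ≤
      ((fam a q F P).filter fun A => Disjoint A B).card := by
  obtain ⟨B0, BC, BW, BY, rfl⟩ := exists_mk a q B
  rw [card_mk] at hB
  have hleft : (mk a q B0 BC BW BY).toLeft = B0 := by
    unfold mk
    exact Finset.toLeft_disjSum
  rw [hleft]
  have inj : ∀ A A' : Finset α, P ⊆ A → P ⊆ A' → A \ P = A' \ P → A = A' := by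
    intro A A' h1 h2 h3
    rw [← Finset.sdiff_union_of_subset h1, ← Finset.sdiff_union_of_subset h2, h3]
  by_cases hW : BW.card < a
  · obtain ⟨K, hK, hKW⟩ := exists_half hW
    obtain ⟨f, hf⟩ := exists_gr (P := P) (Z := BC) (fun x _ => by
      by_contra hcon
      push Not at hcon
      have h1 : col a x ⊆ BC := by
        rintro ⟨x', i⟩ hp
        rw [mem_col] at hp
        subst hp
        exact hcon i
      have h2 := Finset.card_le_card h1
      rw [card_col] at h2
      omega)
    refine Finset.card_le_card_of_injOn (fun A => mk a q (A \ P) (gr P f) K ∅) ?_ ?_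
    · intro A hA
      rw [Finset.mem_coe, Finset.mem_filter] at hA
      rw [Finset.mem_coe, Finset.mem_filter]
      refine ⟨(mem_fam _ _ _ _ _).2 (Or.inr (Or.inr (Or.inl ⟨A, hA.1, hA.2.1, f, K, hK, rfl⟩))),
        ?_⟩
      beta_reduce
      rw [disjoint_mk]
      refine ⟨?_, hf, hKW, Finset.disjoint_empty_left _⟩
      rw [Finset.disjoint_left]
      intro z hz hzB
      rw [Finset.mem_sdiff] at hz
      exact Finset.disjoint_left.1 hA.2.2 hz.1 (Finset.mem_sdiff.2 ⟨hzB, hz.2⟩)
    · intro A hA A' hA' h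
      rw [Finset.mem_coe, Finset.mem_filter] at hA hA'
      exact inj A A' hA.2.1 hA'.2.1 (Finset.disjSum_inj.1 h).1
  · obtain ⟨m, hm⟩ := hP
    have hB0 : B0 = ∅ := by
      rw [← Finset.card_eq_zero]
      omega
    have hBC : BC = ∅ := by
      rw [← Finset.card_eq_zero]
      omega
    have hBY : BY = ∅ := by
      rw [← Finset.card_eq_zero]
      omega
    refine Finset.card_le_card_of_injOn (fun A => mk a q (A \ P) (colz a (A ∩ P) m) ∅ ∅) ?_ ?_
    · intro A hA
      rw [Finset.mem_coe, Finset.mem_filter] at hA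
      rw [Finset.mem_coe, Finset.mem_filter]
      refine ⟨(mem_fam _ _ _ _ _).2 (Or.inr (Or.inl ⟨A, hA.1, m,
        Finset.mem_inter.2 ⟨hA.2.1 hm, hm⟩, rfl⟩)), ?_⟩
      beta_reduce
      rw [disjoint_mk, hB0, hBC, hBY]
      exact ⟨Finset.disjoint_empty_right _, Finset.disjoint_empty_right _,
        Finset.disjoint_empty_left _, Finset.disjoint_empty_left _⟩
    · intro A hA A' hA' h
      rw [Finset.mem_coe, Finset.mem_filter] at hA hA'
      exact inj A A' hA.2.1 hA'.2.1 (Finset.disjSum_inj.1 h).1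

end

end Pool.Agent.EfcF
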